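import Mathlib
import Pool.Agent.H573.FDMRF.Alg

/-! No shift-invariant, finitely dependent random field on the lattice of dimension `d ≥ 1`
supported on proper `q`-colourings is a Markov random field. -/

namespace Pool.Agent.Results.MP_83a7f3_pr.NoFinDepMRF

open MeasureTheory ProbabilityTheory

/-- The lattice graph: two points are adjacent iff their Euclidean distance is `1`. -/
def latt (d : ℕ) : SimpleGraph (Fin d → ℤ) where
  Adj u v := ∑ i, (u i - v i) ^ 2 = 1
  symm := ⟨fun u v h => by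
    rw [← h]; exact Finset.sum_congr rfl (fun i _ => by ring)⟩
  loopless := ⟨fun u h => by simp at h⟩

variable {d q : ℕ} {Ω : Type*} [MeasurableSpace Ω]

/-- The sigma-algebra generated by the variables at the sites of `S`. -/
@[reducible] def sig (X : (Fin d → ℤ) → Ω → Fin q) (S : Set (Fin d → ℤ)) : MeasurableSpace Ω :=
  MeasurableSpace.comap (fun (ω : Ω) (v : S) => X v ω) inferInstance

/-- The outer boundary of a set of sites. -/
def bdry (A : Set (Fin d → ℤ)) : Set (Fin d → ℤ) :=
  {v | v ∉ A ∧ ∃ u ∈ A, (latt d).Adj u v}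

/-- The law of the field is invariant under all translations. -/
def ShiftInvariant (P : Measure Ω) (X : (Fin d → ℤ) → Ω → Fin q) : Prop :=
  ∀ t : Fin d → ℤ, P.map (fun ω v => X (v + t) ω) = P.map (fun ω v => X v ω)

/-- There is `k` such that the variables in two sets of sites at graph distance at least `k`
are independent. -/
def FinitelyDependent (P : Measure Ω) (X : (Fin d → ℤ) → Ω → Fin q) : Prop :=
  ∃ k : ℕ, ∀ A B : Set (Fin d → ℤ), (∀ u ∈ A, ∀ v ∈ B, (k : ℕ∞) ≤ (latt d).edist u v) →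
    IndepFun (fun ω (v : A) => X v ω) (fun ω (v : B) => X v ω) P

/-- Every configuration in the support of the field is a proper colouring. -/
def SupportedOnProper (P : Measure Ω) (X : (Fin d → ℤ) → Ω → Fin q) : Prop :=
  ∀ x : (Fin d → ℤ) → Fin q, (∀ B : Finset (Fin d → ℤ), 0 < P {ω | ∀ v ∈ B, X v ω = x v}) →
    ∀ u v, (latt d).Adj u v → x u ≠ x v

/-- For every finite set `A` of sites the conditional law of the variables in `A` given those
outside `A` is almost surely the conditional law given the variables on the boundary. -/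
def IsMRF (P : Measure Ω) (X : (Fin d → ℤ) → Ω → Fin q) : Prop :=
  ∀ (A : Finset (Fin d → ℤ)) (E : Set (A → Fin q)),
    P[Set.indicator {ω | (fun v : A => X v ω) ∈ E} (fun _ => (1 : ℝ)) | sig X ((A : Set (Fin d → ℤ))ᶜ)]
      =ᵐ[P]
    P[Set.indicator {ω | (fun v : A => X v ω) ∈ E} (fun _ => (1 : ℝ)) | sig X (bdry (A : Set (Fin d → ℤ)))]

section Lattice

theorem abs_le_of_adj {u v : Fin d → ℤ} (h : (latt d).Adj u v) (i : Fin d) :
    |u i - v i| ≤ 1 := by
  have h1 : ∑ i, (u i - v i) ^ 2 = 1 := h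
  have h2 : (u i - v i) ^ 2 ≤ ∑ i, (u i - v i) ^ 2 :=
    Finset.single_le_sum (f := fun i => (u i - v i) ^ 2) (fun i _ => sq_nonneg _)
      (Finset.mem_univ i)
  rw [h1] at h2
  exact (sq_le_one_iff_abs_le_one _).1 h2

theorem abs_le_walk {u v : Fin d → ℤ} (w : (latt d).Walk u v) (i : Fin d) :
    |u i - v i| ≤ w.length := by
  induction w with
  | nil => simp
  | cons h p ih =>
    rename_i a b c
    have h1 := abs_le_of_adj h i
    have h2 : |a i - c i| ≤ |a i - b i| + |b i - c i| := by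
      have := abs_add_le (a i - b i) (b i - c i)
      simpa using this
    rw [SimpleGraph.Walk.length_cons]
    push_cast
    linarith

theorem le_edist {u v : Fin d → ℤ} {k : ℕ} (i : Fin d) (h : (k : ℤ) ≤ |u i - v i|) :
    (k : ℕ∞) ≤ (latt d).edist u v := by
  unfold SimpleGraph.edist
  refine le_iInf (fun w => ?_)
  have h1 := h.trans (abs_le_walk w i)
  exact_mod_cast h1

/-- The points of the first coordinate line. -/
def line (i₀ : Fin d) (t : ℤ) : Fin d → ℤ := Pi.single i₀ t

theorem line_self (i₀ : Fin d) (t : ℤ) : line i₀ t i₀ = t := by simp [line]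

theorem line_ne {i₀ i : Fin d} (h : i ≠ i₀) (t : ℤ) : line i₀ t i = 0 := by simp [line, h]

theorem line_add (i₀ : Fin d) (s t : ℤ) : line i₀ s + line i₀ t = line i₀ (s + t) := by
  simp [line, Pi.single_add]

theorem line_adj (i₀ : Fin d) (t : ℤ) : (latt d).Adj (line i₀ t) (line i₀ (t + 1)) := by
  change ∑ i, (line i₀ t i - line i₀ (t + 1) i) ^ 2 = 1
  rw [Finset.sum_eq_single i₀]
  · rw [line_self, line_self]; ring
  · intro b _ hb
    rw [line_ne hb, line_ne hb]; ring
  · intro h; exact absurd (Finset.mem_univ _) h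

end Lattice

section Words

/-- The cylinder of the configurations reading the word `w` from position `t` on. -/
def evc (i₀ : Fin d) : ℤ → List (Fin q) → Set ((Fin d → ℤ) → Fin q)
  | _, [] => Set.univ
  | t, a :: w => {x | x (line i₀ t) = a} ∩ evc i₀ (t + 1) w

theorem evc_append (i₀ : Fin d) : ∀ (u v : List (Fin q)) (t : ℤ),
    evc i₀ t (u ++ v) = evc i₀ t u ∩ evc i₀ (t + u.length) v
  | [], v, t => by simp [evc]
  | a :: u, v, t => by
    rw [List.cons_append, evc, evc, evc_append i₀ u v (t + 1), Set.inter_assoc,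
      List.length_cons]
    congr 3
    push_cast
    ring

theorem evc_shift (i₀ : Fin d) (s : ℤ) : ∀ (w : List (Fin q)) (t : ℤ),
    (fun (x : (Fin d → ℤ) → Fin q) v => x (v + line i₀ s)) ⁻¹' evc i₀ t w = evc i₀ (t + s) w
  | [], t => rfl
  | a :: w, t => by
    rw [evc, evc, Set.preimage_inter, evc_shift i₀ s w (t + 1)]
    have h1 : t + 1 + s = t + s + 1 := by ring
    rw [h1]
    congr 1
    ext x
    simp only [Set.mem_preimage]
    change x (line i₀ t + line i₀ s) = a ↔ x (line i₀ (t + s)) = a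
    rw [line_add]

omit [MeasurableSpace Ω] in
theorem measurable_sig (X : (Fin d → ℤ) → Ω → Fin q) {S : Set (Fin d → ℤ)} {v : Fin d → ℤ}
    (hv : v ∈ S) : Measurable[sig X S] (X v) := by
  have h1 : Measurable[sig X S] (fun (ω : Ω) (v : S) => X v ω) := comap_measurable _
  have h2 : Measurable (fun (x : S → Fin q) => x ⟨v, hv⟩) := measurable_pi_apply _
  exact h2.comp h1

omit [MeasurableSpace Ω] in
theorem measurable_sig_pi (X : (Fin d → ℤ) → Ω → Fin q) {S T : Set (Fin d → ℤ)}
    (h : T ⊆ S) : Measurable[sig X S] (fun (ω : Ω) (v : T) => X v ω) := by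
  refine @measurable_pi_lambda Ω T (fun _ => Fin q) (sig X S) _ _ (fun v => ?_)
  exact measurable_sig X (h v.2)

omit [MeasurableSpace Ω] in
theorem ev_measurable (X : (Fin d → ℤ) → Ω → Fin q) (i₀ : Fin d) {S : Set (Fin d → ℤ)} :
    ∀ (w : List (Fin q)) (t : ℤ), (∀ s, t ≤ s → s < t + w.length → line i₀ s ∈ S) →
      MeasurableSet[sig X S] ((fun ω v => X v ω) ⁻¹' evc i₀ t w)
  | [], t, _ => by
    rw [evc, Set.preimage_univ]; exact @MeasurableSet.univ _ (sig X S)
  | a :: w, t, h => by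
    rw [evc, Set.preimage_inter]
    refine @MeasurableSet.inter _ (sig X S) _ _ ?_ ?_
    · have h1 : line i₀ t ∈ S := h t le_rfl (by rw [List.length_cons]; push_cast; omega)
      exact measurable_sig X h1 (MeasurableSet.singleton a)
    · refine ev_measurable X i₀ w (t + 1) (fun s h1 h2 => h s (by omega) ?_)
      rw [List.length_cons]; push_cast; omega

end Words

theorem sig_le {X : (Fin d → ℤ) → Ω → Fin q} (hX : ∀ v, Measurable (X v))
    (S : Set (Fin d → ℤ)) : sig X S ≤ (inferInstance : MeasurableSpace Ω) :=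
  measurable_iff_comap_le.1 (measurable_pi_lambda _ (fun v => hX v))

/-- On a set where the boundary variables are fixed, the Markov property gives one constant. -/
theorem mrf_gamma {P : Measure Ω} [IsProbabilityMeasure P] {X : (Fin d → ℤ) → Ω → Fin q}
    (hX : ∀ v, Measurable (X v)) (hM : IsMRF P X) (A : Finset (Fin d → ℤ))
    (E : Set (A → Fin q)) (W₀ : Set Ω)
    (hW₀ : ∀ ω ∈ W₀, ∀ ω' ∈ W₀, ∀ v ∈ bdry (A : Set (Fin d → ℤ)), X v ω = X v ω') :
    ∃ γ : ℝ, ∀ W, W ⊆ W₀ → MeasurableSet[sig X (A : Set (Fin d → ℤ))ᶜ] W →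
      P.real ({ω | (fun v : A => X v ω) ∈ E} ∩ W) = γ * P.real W := by
  rcases W₀.eq_empty_or_nonempty with h | ⟨ω₀, hω₀⟩
  · refine ⟨0, fun W hW _ => ?_⟩
    have : W = ∅ := Set.subset_eq_empty hW h
    simp [this]
  · set V : Set Ω := {ω | (fun v : A => X v ω) ∈ E} with hV
    set f : Ω → ℝ := Set.indicator V (fun _ => (1 : ℝ)) with hf
    set g : Ω → ℝ := P[f | sig X (bdry (A : Set (Fin d → ℤ)))] with hg
    have hVm : MeasurableSet V := by
      have h1 : Measurable (fun ω (v : A) => X v ω) := measurable_pi_lambda _ (fun v => hX v)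
      exact h1 (Set.toFinite E).measurableSet
    have hfint : Integrable f P := (integrable_const (1 : ℝ)).indicator hVm
    have hgm : Measurable[sig X (bdry (A : Set (Fin d → ℤ)))] g :=
      stronglyMeasurable_condExp.measurable
    have hgc : ∀ ω ∈ W₀, g ω = g ω₀ := by
      intro ω hω
      have h1 : MeasurableSet[sig X (bdry (A : Set (Fin d → ℤ)))] (g ⁻¹' {g ω₀}) :=
        hgm (MeasurableSet.singleton _)
      obtain ⟨B, _, hB⟩ := h1
      have h2 : ω₀ ∈ g ⁻¹' {g ω₀} := rfl
      rw [← hB] at h2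
      have h3 : (fun v : bdry (A : Set (Fin d → ℤ)) => X v ω)
          = (fun v : bdry (A : Set (Fin d → ℤ)) => X v ω₀) := by
        funext v
        exact hW₀ ω hω ω₀ hω₀ v.1 v.2
      have h4 : ω ∈ g ⁻¹' {g ω₀} := by
        rw [← hB]
        change (fun v : bdry (A : Set (Fin d → ℤ)) => X v ω) ∈ B
        rw [h3]; exact h2
      exact h4
    refine ⟨g ω₀, fun W hW hWm => ?_⟩
    have hle := sig_le hX ((A : Set (Fin d → ℤ))ᶜ)
    have hWm' : MeasurableSet W := hle _ hWm
    have h1 : ∫ ω in W, (P[f | sig X (A : Set (Fin d → ℤ))ᶜ]) ω ∂P = ∫ ω in W, f ω ∂P :=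
      setIntegral_condExp hle hfint hWm
    have h2 : ∫ ω in W, (P[f | sig X (A : Set (Fin d → ℤ))ᶜ]) ω ∂P = ∫ ω in W, g ω ∂P :=
      integral_congr_ae (ae_restrict_of_ae (hM A E))
    have h3 : ∫ ω in W, g ω ∂P = ∫ _ω in W, g ω₀ ∂P :=
      setIntegral_congr_fun hWm' (fun ω hω => hgc ω (hW hω))
    have h4 : ∫ ω in W, f ω ∂P = P.real (V ∩ W) := by
      rw [hf, integral_indicator hVm, Measure.restrict_restrict hVm, setIntegral_const]
      simp
    rw [← h4, ← h1, h2, h3, setIntegral_const, smul_eq_mul, mul_comm]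

/-- Partition of an event according to the values of finitely many variables. -/
theorem real_partition {P : Measure Ω} [IsProbabilityMeasure P] {β : Type*} [Fintype β]
    [MeasurableSpace β] [MeasurableSingletonClass β] (f : Ω → β) (hf : Measurable f) (E : Set Ω) :
    P.real E = ∑ s, P.real (E ∩ f ⁻¹' {s}) := by
  have h1 : ∀ s, P.real (E ∩ f ⁻¹' {s}) = (P.restrict E).real (f ⁻¹' {s}) := by
    intro s
    rw [measureReal_restrict_apply (hf (MeasurableSet.singleton s)), Set.inter_comm]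
  simp_rw [h1]
  rw [sum_measureReal_preimage_singleton _ (fun y _ => hf (MeasurableSet.singleton y))]
  simp

/-- In a proper colouring adjacent sites almost surely have different colours. -/
theorem adj_null {P : Measure Ω} {X : (Fin d → ℤ) → Ω → Fin q}
    (hp : SupportedOnProper P X) {u v : Fin d → ℤ} (huv : (latt d).Adj u v) :
    P {ω | X u ω = X v ω} = 0 := by
  have hsub : {ω | X u ω = X v ω} ⊆ ⋃ (B : Finset (Fin d → ℤ)) (π : B → Fin q)
      (_ : P {ω | ∀ v : B, X v ω = π v} = 0), {ω | ∀ v : B, X v ω = π v} := by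
    intro ω hω
    by_contra hcon
    have h1 : ∀ B : Finset (Fin d → ℤ), 0 < P {ω' | ∀ v ∈ B, X v ω' = X v ω} := by
      intro B
      rw [pos_iff_ne_zero]
      intro h0
      apply hcon
      rw [Set.mem_iUnion]
      refine ⟨B, ?_⟩
      rw [Set.mem_iUnion]
      refine ⟨fun v => X v ω, ?_⟩
      rw [Set.mem_iUnion]
      refine ⟨?_, fun v => rfl⟩
      rw [← h0]
      congr 1
      ext ω'
      exact ⟨fun h v hv => h ⟨v, hv⟩, fun h v => h v.1 v.2⟩
    exact hp (fun v => X v ω) h1 u v huv hω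
  refine measure_mono_null hsub ?_
  refine measure_iUnion_null (fun B => measure_iUnion_null (fun π => measure_iUnion_null ?_))
  exact fun h => h

section Main

variable {P : Measure Ω} [IsProbabilityMeasure P] {X : (Fin d → ℤ) → Ω → Fin q}

/-- The probability of a word along the line. -/
noncomputable def pw (P : Measure Ω) (X : (Fin d → ℤ) → Ω → Fin q) (i₀ : Fin d) (t : ℤ)
    (w : List (Fin q)) : ℝ :=
  P.real ((fun ω v => X v ω) ⁻¹' evc i₀ t w)

theorem evc_measurable (i₀ : Fin d) : ∀ (w : List (Fin q)) (t : ℤ),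
    MeasurableSet (evc i₀ t w)
  | [], t => MeasurableSet.univ
  | a :: w, t => by
    rw [evc]
    refine MeasurableSet.inter ?_ (evc_measurable i₀ w (t + 1))
    have h2 : Measurable (fun (x : (Fin d → ℤ) → Fin q) => x (line i₀ t)) :=
      measurable_pi_apply _
    exact h2 (MeasurableSet.singleton a)

omit [IsProbabilityMeasure P] in
theorem pw_shift (hX : ∀ v, Measurable (X v)) (hs : ShiftInvariant P X) (i₀ : Fin d)
    (t : ℤ) (w : List (Fin q)) : pw P X i₀ t w = pw P X i₀ 0 w := by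
  have hm0 : Measurable (fun ω v => X v ω) := measurable_pi_lambda _ (fun v => hX v)
  have hm1 : Measurable (fun ω v => X (v + line i₀ t) ω) :=
    measurable_pi_lambda _ (fun v => hX _)
  have h1 := congrArg (fun μ : Measure ((Fin d → ℤ) → Fin q) => μ (evc i₀ 0 w))
    (hs (line i₀ t))
  rw [Measure.map_apply hm1 (evc_measurable i₀ w 0),
    Measure.map_apply hm0 (evc_measurable i₀ w 0)] at h1
  have h2 : (fun ω v => X (v + line i₀ t) ω) ⁻¹' evc i₀ 0 w
      = (fun ω v => X v ω) ⁻¹' evc i₀ t w := by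
    have h3 := evc_shift (q := q) i₀ t w 0
    rw [zero_add] at h3
    rw [← h3]
    rfl
  rw [h2] at h1
  unfold pw
  rw [measureReal_def, measureReal_def, h1]

/-- Existence of a pattern of positive probability on a finite set of sites. -/
theorem exists_pattern (S : Set (Fin d → ℤ)) (hS : S.Finite) :
    ∃ σ : S → Fin q, 0 < P.real ((fun (ω : Ω) (v : S) => X v ω) ⁻¹' {σ}) := by
  by_contra hcon
  have h1 : ∀ σ : S → Fin q, P ((fun (ω : Ω) (v : S) => X v ω) ⁻¹' {σ}) = 0 := by
    intro σ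
    by_contra h
    exact hcon ⟨σ, ENNReal.toReal_pos h (measure_ne_top _ _)⟩
  have hfin : Finite S := hS
  have h2 : P (⋃ σ : S → Fin q, (fun (ω : Ω) (v : S) => X v ω) ⁻¹' {σ}) = 0 :=
    measure_iUnion_null h1
  have h3 : (⋃ σ : S → Fin q, (fun (ω : Ω) (v : S) => X v ω) ⁻¹' {σ}) = Set.univ := by
    ext ω
    simp
  rw [h3, measure_univ] at h2
  exact one_ne_zero h2

/-- Finite Hankel rank of the word probabilities along the line. -/
theorem hankel (hX : ∀ v, Measurable (X v)) (hs : ShiftInvariant P X) (hM : IsMRF P X)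
    (i₀ : Fin d) (k : ℕ)
    (hk : ∀ A B : Set (Fin d → ℤ), (∀ u ∈ A, ∀ v ∈ B, (k : ℕ∞) ≤ (latt d).edist u v) →
      IndepFun (fun ω (v : A) => X v ω) (fun ω (v : B) => X v ω) P) (j : ℕ) :
    ∃ (L : List (Fin q) → ((Finset.Icc (fun i : Fin d => if i = i₀ then (0 : ℤ) else -k)
        (fun i => if i = i₀ then 0 else k)) → Fin q) → ℝ)
      (R : ((Finset.Icc (fun i : Fin d => if i = i₀ then (0 : ℤ) else -k)
        (fun i => if i = i₀ then 0 else k)) → Fin q) → List (Fin q) → ℝ),
      ∀ u v, v.length ≤ j → pw P X i₀ 0 (u ++ v) = ∑ s, L u s * R s v := by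
  classical
  set L₀ : Finset (Fin d → ℤ) := Finset.Icc (fun i : Fin d => if i = i₀ then (0 : ℤ) else -k)
        (fun i => if i = i₀ then 0 else k) with hL₀
  set A : Finset (Fin d → ℤ) := Finset.Icc (fun i : Fin d => if i = i₀ then (1 : ℤ) else -k)
        (fun i => if i = i₀ then (j + k : ℤ) else k) with hA
  set S : Set (Fin d → ℤ) := bdry (A : Set (Fin d → ℤ)) \ (L₀ : Set (Fin d → ℤ)) with hS
  -- membership
  have memA : ∀ v : Fin d → ℤ, v ∈ A ↔ (1 ≤ v i₀ ∧ v i₀ ≤ j + k) ∧
      ∀ i, i ≠ i₀ → |v i| ≤ k := by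
    intro v
    rw [hA, Finset.mem_Icc, Pi.le_def, Pi.le_def]
    constructor
    · rintro ⟨h1, h2⟩
      refine ⟨⟨by simpa using h1 i₀, by simpa using h2 i₀⟩, fun i hi => ?_⟩
      have h3 := h1 i
      have h4 := h2 i
      rw [if_neg hi] at h3 h4
      exact abs_le.2 ⟨h3, h4⟩
    · rintro ⟨⟨h1, h2⟩, h3⟩
      refine ⟨fun i => ?_, fun i => ?_⟩
      · by_cases hi : i = i₀
        · subst hi; simpa using h1
        · rw [if_neg hi]; exact (abs_le.1 (h3 i hi)).1
      · by_cases hi : i = i₀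
        · subst hi; simpa using h2
        · rw [if_neg hi]; exact (abs_le.1 (h3 i hi)).2
  have memL : ∀ v : Fin d → ℤ, v ∈ L₀ ↔ v i₀ = 0 ∧ ∀ i, i ≠ i₀ → |v i| ≤ k := by
    intro v
    rw [hL₀, Finset.mem_Icc, Pi.le_def, Pi.le_def]
    constructor
    · rintro ⟨h1, h2⟩
      refine ⟨le_antisymm (by simpa using h2 i₀) (by simpa using h1 i₀), fun i hi => ?_⟩
      have h3 := h1 i
      have h4 := h2 i
      rw [if_neg hi] at h3 h4
      exact abs_le.2 ⟨h3, h4⟩
    · rintro ⟨h1, h3⟩
      refine ⟨fun i => ?_, fun i => ?_⟩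
      · by_cases hi : i = i₀
        · subst hi; simp [h1]
        · rw [if_neg hi]; exact (abs_le.1 (h3 i hi)).1
      · by_cases hi : i = i₀
        · subst hi; simp [h1]
        · rw [if_neg hi]; exact (abs_le.1 (h3 i hi)).2
  -- the set `S` is finite
  have hSfin : S.Finite := by
    refine Set.Finite.subset (Finset.finite_toSet (Finset.Icc
      (fun i : Fin d => (if i = i₀ then (1 : ℤ) else -k) - 1)
      (fun i => (if i = i₀ then (j + k : ℤ) else k) + 1))) ?_
    rintro v ⟨⟨_, u, hu, huv⟩, _⟩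
    rw [Finset.mem_coe, hA, Finset.mem_Icc, Pi.le_def, Pi.le_def] at hu
    rw [Finset.mem_coe, Finset.mem_Icc, Pi.le_def, Pi.le_def]
    refine ⟨fun i => ?_, fun i => ?_⟩
    · have h1 := hu.1 i
      have h2 := abs_le.1 (abs_le_of_adj huv i)
      linarith
    · have h1 := hu.2 i
      have h2 := abs_le.1 (abs_le_of_adj huv i)
      linarith
  -- `S` is far from the line
  have hfar : ∀ u ∈ {x | ∃ t : ℤ, t ≤ j ∧ x = line i₀ t}, ∀ v ∈ S,
      (k : ℕ∞) ≤ (latt d).edist u v := by
    rintro _ ⟨t, ht, rfl⟩ v ⟨⟨hvA, u, hu, huv⟩, hvL⟩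
    rw [Finset.mem_coe] at hvA hu hvL
    rw [memA] at hvA hu
    rw [memL] at hvL
    by_cases hall : ∀ i, i ≠ i₀ → |v i| ≤ k
    · have h2 := abs_le.1 (abs_le_of_adj huv i₀)
      have h3 : (j : ℤ) + k < v i₀ := by
        by_contra h4
        push Not at h4
        rcases lt_or_ge (v i₀) 1 with h5 | h5
        · exact hvL ⟨by omega, hall⟩
        · exact hvA ⟨⟨h5, h4⟩, hall⟩
      refine le_edist i₀ ?_
      rw [line_self, abs_sub_comm]
      exact le_trans (by omega) (le_abs_self _)
    · push Not at hall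
      obtain ⟨i, hi, hvi⟩ := hall
      refine le_edist i ?_
      rw [line_ne hi, zero_sub, abs_neg]
      exact hvi.le
  obtain ⟨σ, hσ⟩ := exists_pattern (P := P) (X := X) S hSfin
  set Sσ : Set Ω := (fun (ω : Ω) (v : S) => X v ω) ⁻¹' {σ} with hSσ
  -- the constants
  have hfL : Measurable (fun (ω : Ω) (v : L₀) => X v ω) := measurable_pi_lambda _ (fun v => hX v)
  have hconst : ∀ (s : L₀ → Fin q) (w : List (Fin q)), w.length ≤ j → ∃ γ : ℝ, ∀ W,
      W ⊆ Sσ ∩ (fun (ω : Ω) (v : L₀) => X v ω) ⁻¹' {s} →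
      MeasurableSet[sig X (A : Set (Fin d → ℤ))ᶜ] W →
      P.real ((fun ω v => X v ω) ⁻¹' evc i₀ 1 w ∩ W) = γ * P.real W := by
    intro s w hw
    have h1 : MeasurableSet[sig X (A : Set (Fin d → ℤ))] ((fun ω v => X v ω) ⁻¹' evc i₀ 1 w) := by
      refine ev_measurable X i₀ w 1 (fun t h1 h2 => ?_)
      rw [Finset.mem_coe, memA]
      refine ⟨?_, fun i hi => ?_⟩
      · rw [line_self]; omega
      · rw [line_ne hi]; simp
    obtain ⟨E, _, hE⟩ := h1
    obtain ⟨γ, hγ⟩ := mrf_gamma (P := P) hX hM A E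
      (Sσ ∩ (fun (ω : Ω) (v : L₀) => X v ω) ⁻¹' {s}) (by
        rintro ω ⟨h1, h2⟩ ω' ⟨h1', h2'⟩ v hv
        by_cases hvL : v ∈ L₀
        · have h3 : (fun v : L₀ => X v ω) = (fun v : L₀ => X v ω') := by
            rw [Set.mem_preimage, Set.mem_singleton_iff] at h2 h2'
            rw [h2, h2']
          exact congrFun h3 ⟨v, hvL⟩
        · have h3 : (fun v : S => X v ω) = (fun v : S => X v ω') := by
            rw [hSσ, Set.mem_preimage, Set.mem_singleton_iff] at h1 h1'
            rw [h1, h1']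
          exact congrFun h3 ⟨v, hv, hvL⟩)
    refine ⟨γ, fun W hW hWm => ?_⟩
    rw [← hγ W hW hWm, ← hE]
    rfl
  choose! γ hγ using hconst
  refine ⟨fun u s => P.real ((fun ω v => X v ω) ⁻¹' evc i₀ (1 - u.length) u ∩
      (Sσ ∩ (fun (ω : Ω) (v : L₀) => X v ω) ⁻¹' {s})) / P.real Sσ, γ, fun u v hv => ?_⟩
  set U : Set Ω := (fun ω v => X v ω) ⁻¹' evc i₀ (1 - u.length) u with hU
  set V : Set Ω := (fun ω v => X v ω) ⁻¹' evc i₀ 1 v with hV
  have hUV : pw P X i₀ 0 (u ++ v) = P.real (U ∩ V) := by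
    rw [← pw_shift hX hs i₀ (1 - u.length), pw, evc_append, Set.preimage_inter]
    congr 3
    have : (1 : ℤ) - u.length + u.length = 1 := by ring
    rw [this]
  -- independence
  have hind : P.real (U ∩ V ∩ Sσ) = P.real (U ∩ V) * P.real Sσ := by
    have h1 := hk _ _ hfar
    have h2 : MeasurableSet[sig X {x | ∃ t : ℤ, t ≤ j ∧ x = line i₀ t}] (U ∩ V) := by
      refine @MeasurableSet.inter _ (sig X _) _ _ ?_ ?_
      · refine ev_measurable X i₀ u _ (fun t h1 h2 => ⟨t, by omega, rfl⟩)
      · refine ev_measurable X i₀ v _ (fun t h1 h2 => ⟨t, by omega, rfl⟩)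
    have h3 : MeasurableSet[sig X S] Sσ := by
      have h4 : Measurable[sig X S] (fun (ω : Ω) (v : S) => X v ω) := comap_measurable _
      have hfinS : Finite S := hSfin
      exact h4 (Set.finite_singleton σ).measurableSet
    have h5 := h1.meas_inter h2 h3
    rw [measureReal_def, h5, ENNReal.toReal_mul]
    rfl
  have hpart : P.real (U ∩ V ∩ Sσ) = ∑ s, γ s v *
      P.real (U ∩ (Sσ ∩ (fun (ω : Ω) (v : L₀) => X v ω) ⁻¹' {s})) := by
    rw [real_partition (fun (ω : Ω) (v : L₀) => X v ω) hfL (U ∩ V ∩ Sσ)]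
    refine Finset.sum_congr rfl (fun s _ => ?_)
    rw [← hγ s v hv]
    · congr 1
      ext ω
      simp only [Set.mem_inter_iff]
      tauto
    · exact Set.inter_subset_right
    · refine @MeasurableSet.inter _ (sig X _) _ _ ?_
        (@MeasurableSet.inter _ (sig X _) _ _ ?_ ?_)
      · refine ev_measurable X i₀ u _ (fun t h1 h2 => ?_)
        rw [Set.mem_compl_iff, Finset.mem_coe, memA, line_self]
        rintro ⟨⟨h3, _⟩, _⟩
        omega
      · have hsub : S ⊆ (A : Set (Fin d → ℤ))ᶜ := fun x hx => hx.1.1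
        have hfinS : Finite S := hSfin
        exact measurable_sig_pi X hsub (Set.finite_singleton σ).measurableSet
      · have hsub : ((L₀ : Finset (Fin d → ℤ)) : Set (Fin d → ℤ)) ⊆
            (A : Set (Fin d → ℤ))ᶜ := by
          intro x hx hxA
          rw [Finset.mem_coe] at hx hxA
          rw [memL] at hx
          rw [memA] at hxA
          omega
        exact measurable_sig_pi X hsub (MeasurableSet.singleton s)
  have hne : P.real Sσ ≠ 0 := hσ.ne'
  rw [hUV]
  have h6 : P.real (U ∩ V) = (∑ s, γ s v *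
      P.real (U ∩ (Sσ ∩ (fun (ω : Ω) (v : L₀) => X v ω) ⁻¹' {s}))) / P.real Sσ := by
    rw [eq_div_iff hne, ← hind, hpart]
  rw [h6, Finset.sum_div]
  refine Finset.sum_congr rfl (fun s _ => ?_)
  ring

end Main

/-- **Main theorem.** In every dimension `d ≥ 1` and for every number `q` of colours, a
shift-invariant finitely dependent random field supported on proper `q`-colourings of the
lattice is never a Markov random field. -/
theorem result : ∀ (d q : ℕ), 1 ≤ d → ∀ (Ω : Type*) [MeasurableSpace Ω] (P : Measure Ω)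
    [IsProbabilityMeasure P] (X : (Fin d → ℤ) → Ω → Fin q), (∀ v, Measurable (X v)) →
    ShiftInvariant P X → FinitelyDependent P X → SupportedOnProper P X → ¬ IsMRF P X := by
  intro d q hd Ω _ P _ X hX hs hf hp hM
  obtain ⟨k, hk⟩ := hf
  set i₀ : Fin d := ⟨0, hd⟩ with hi₀
  refine H573.FDMRF.alg_contradiction (pw P X i₀ 0)
    ((Finset.Icc (fun i : Fin d => if i = i₀ then (0 : ℤ) else -k)
        (fun i => if i = i₀ then 0 else k)) → Fin q) ?_ ?_ ?_ ?_ k
    (fun n u v => P.real ((fun ω v => X v ω) ⁻¹' evc i₀ 0 u ∩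
      (fun ω v => X v ω) ⁻¹' evc i₀ (u.length + n) v)) ?_ ?_ ?_
    (hankel hX hs hM i₀ k hk)
  · simp [pw, evc]
  · intro v
    rw [← pw_shift hX hs i₀ 1 v]
    unfold pw
    rw [real_partition (X (line i₀ 0)) (hX _) ((fun ω v => X v ω) ⁻¹' evc i₀ 1 v)]
    refine Finset.sum_congr rfl (fun a _ => ?_)
    rw [evc, Set.preimage_inter, zero_add, Set.inter_comm]
    rfl
  · intro u
    unfold pw
    rw [real_partition (X (line i₀ u.length)) (hX _) ((fun ω v => X v ω) ⁻¹' evc i₀ 0 u)]
    refine Finset.sum_congr rfl (fun a _ => ?_)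
    rw [evc_append, Set.preimage_inter, evc, evc, Set.inter_univ, zero_add]
    rfl
  · intro u a v
    have h1 := adj_null hp (line_adj i₀ (u.length : ℤ))
    unfold pw
    rw [measureReal_def]
    have h2 : P ((fun ω v => X v ω) ⁻¹' evc i₀ 0 (u ++ a :: a :: v)) = 0 := by
      refine measure_mono_null ?_ h1
      intro ω hω
      rw [evc_append, evc, evc, zero_add] at hω
      obtain ⟨_, h3, h4, _⟩ := hω
      change X (line i₀ u.length) ω = a at h3
      change X (line i₀ (u.length + 1)) ω = a at h4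
      change X (line i₀ u.length) ω = X (line i₀ (u.length + 1)) ω
      rw [h3, h4]
    rw [h2]; rfl
  · intro u v
    unfold pw
    rw [evc_append, Set.preimage_inter]
    simp
  · intro n u v
    rw [real_partition (X (line i₀ (u.length + n))) (hX _)]
    refine Finset.sum_congr rfl (fun a _ => ?_)
    rw [evc, Set.preimage_inter, Set.inter_assoc]
    congr 2
    rw [Set.inter_comm]
    have : ((u.length : ℤ) + ((n + 1 : ℕ) : ℤ)) = u.length + n + 1 := by push_cast; ring
    rw [this]
    rfl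
  · intro u v
    have h1 := hk {x | ∃ t : ℤ, t < u.length ∧ x = line i₀ t}
      {x | ∃ t : ℤ, u.length + k ≤ t ∧ x = line i₀ t} (by
        rintro _ ⟨s, hs, rfl⟩ _ ⟨t, ht, rfl⟩
        refine le_edist i₀ ?_
        rw [line_self, line_self, abs_sub_comm]
        exact le_trans (by omega) (le_abs_self _))
    have h2 : MeasurableSet[sig X {x | ∃ t : ℤ, t < u.length ∧ x = line i₀ t}]
        ((fun ω v => X v ω) ⁻¹' evc i₀ 0 u) :=
      ev_measurable X i₀ u _ (fun t h1 h2 => ⟨t, by omega, rfl⟩)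
    have h3 : MeasurableSet[sig X {x | ∃ t : ℤ, u.length + k ≤ t ∧ x = line i₀ t}]
        ((fun ω v => X v ω) ⁻¹' evc i₀ (u.length + k) v) :=
      ev_measurable X i₀ v _ (fun t h1 h2 => ⟨t, by omega, rfl⟩)
    have h5 := h1.meas_inter h2 h3
    rw [measureReal_def, h5, ENNReal.toReal_mul, ← pw_shift hX hs i₀ (u.length + k) v]
    rfl

end Pool.Agent.Results.MP_83a7f3_pr.NoFinDepMRF
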